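import Pool.Agent.Lib.MP_07117b_nt_h2.Alg

/-!
The actions on the nodes: the automorphisms act on the node sets, the fibres of `L_j → M_j` are
torsors under `ZMod 13` and those of `M_{j+1} → L_j` torsors under the Klein four group.
-/

set_option autoImplicit false

namespace Pool.Agent.Arb

open Cst

section gal
variable {K F : Type*} [Field K] [Field F] [Algebra K F]

theorem g_a (c0 : Cst K) (g : F ≃ₐ[K] F) :
    g (c0.map (algebraMap K F)).a = (c0.map (algebraMap K F)).a := g.commutes c0.a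

theorem g_ω (c0 : Cst K) (g : F ≃ₐ[K] F) :
    g (c0.map (algebraMap K F)).ω = (c0.map (algebraMap K F)).ω := g.commutes c0.ω

theorem g_ζ (c0 : Cst K) (g : F ≃ₐ[K] F) :
    g (c0.map (algebraMap K F)).ζ = (c0.map (algebraMap K F)).ζ := g.commutes c0.ζ

theorem g_P (c0 : Cst K) (g : F ≃ₐ[K] F) (w : F) :
    g ((c0.map (algebraMap K F)).P w) = (c0.map (algebraMap K F)).P (g w) := by
  unfold Cst.P
  rw [map_div₀, map_mul, map_sub, map_sub, map_mul, map_mul, map_mul, map_pow, map_one, g_a,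
    map_ofNat]

theorem g_MS (c0 : Cst K) (g : F ≃ₐ[K] F) (j : ℕ) {w : F}
    (hw : w ∈ (c0.map (algebraMap K F)).MS j) : g w ∈ (c0.map (algebraMap K F)).MS j := by
  induction j generalizing w with
  | zero =>
    have h : w = (c0.map (algebraMap K F)).m := hw
    subst h
    show g (c0.map (algebraMap K F)).m = (c0.map (algebraMap K F)).m
    unfold Cst.m
    rw [map_sub, map_add, map_mul, map_one, g_a, g_ω, map_ofNat]
  | succ j ih =>
    obtain ⟨h1, h2⟩ := hw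
    refine ⟨?_, ?_⟩
    · have h3 : g (1 - 2 * (c0.map (algebraMap K F)).a * w ^ 3) =
          1 - 2 * (c0.map (algebraMap K F)).a * (g w) ^ 3 := by
        rw [map_sub, map_mul, map_mul, map_pow, map_one, g_a, map_ofNat]
      rw [← h3]
      exact fun h => h1 ((map_eq_zero g).1 h)
    · rw [← g_P, ← map_pow]
      exact ih h2

theorem g_LS (c0 : Cst K) (g : F ≃ₐ[K] F) (j : ℕ) {w : F}
    (hw : w ∈ (c0.map (algebraMap K F)).LS j) : g w ∈ (c0.map (algebraMap K F)).LS j := by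
  show (g w) ^ 13 ∈ (c0.map (algebraMap K F)).MS j
  rw [← map_pow]
  exact g_MS c0 g j hw

instance actMS (c0 : Cst K) (j : ℕ) : MulAction (F ≃ₐ[K] F) ((c0.map (algebraMap K F)).MS j) where
  smul g w := ⟨g w, g_MS c0 g j w.2⟩
  one_smul w := Subtype.ext rfl
  mul_smul g h w := Subtype.ext rfl

instance actLS (c0 : Cst K) (j : ℕ) : MulAction (F ≃ₐ[K] F) ((c0.map (algebraMap K F)).LS j) where
  smul g w := ⟨g w, g_LS c0 g j w.2⟩
  one_smul w := Subtype.ext rfl
  mul_smul g h w := Subtype.ext rfl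

theorem smul_MS (c0 : Cst K) (j : ℕ) (g : F ≃ₐ[K] F) (w : (c0.map (algebraMap K F)).MS j) :
    ((g • w : (c0.map (algebraMap K F)).MS j) : F) = g w := rfl

theorem smul_LS (c0 : Cst K) (j : ℕ) (g : F ≃ₐ[K] F) (w : (c0.map (algebraMap K F)).LS j) :
    ((g • w : (c0.map (algebraMap K F)).LS j) : F) = g w := rfl

end gal

section tors
variable {F : Type*} [Field F] [CharZero F]

omit [CharZero F] in
theorem ζ_pow_mul_pow (c : Cst F) (k : ℕ) (z : F) : (c.ζ ^ k * z) ^ 13 = z ^ 13 := by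
  rw [mul_pow, ← pow_mul, mul_comm k 13, pow_mul, c.hζ, one_pow, one_mul]

theorem ζ_LS (c : Cst F) {j : ℕ} {z : F} (hz : z ∈ c.LS j) (k : ℕ) : c.ζ ^ k * z ∈ c.LS j := by
  show (c.ζ ^ k * z) ^ 13 ∈ c.MS j
  rw [ζ_pow_mul_pow]
  exact hz

theorem S_MS (c : Cst F) {j : ℕ} {w : F} (hw : w ∈ c.MS (j + 1)) (v : V4) :
    c.S v w ∈ c.MS (j + 1) := by
  have h := MS_good hw
  refine ⟨(h.S v).1, ?_⟩
  rw [h.P_S v]
  exact hw.2

omit [CharZero F] in
theorem ζ_pow_mod (c : Cst F) (n : ℕ) : c.ζ ^ (n % 13) = c.ζ ^ n := by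
  conv_rhs => rw [← Nat.div_add_mod n 13, pow_add, pow_mul, c.hζ, one_pow, one_mul]

theorem ζ_val_add (c : Cst F) (k l : ZMod 13) :
    c.ζ ^ (k + l).val = c.ζ ^ k.val * c.ζ ^ l.val := by
  rw [ZMod.val_add, ζ_pow_mod, pow_add]

omit [CharZero F] in
theorem ζ_prim (c : Cst F) : IsPrimitiveRoot c.ζ 13 := by
  have h13 : Fact (Nat.Prime 13) := ⟨by norm_num⟩
  have h1 : orderOf c.ζ = 13 := orderOf_eq_prime c.hζ c.hζ1
  exact h1 ▸ IsPrimitiveRoot.orderOf c.ζ

instance rotLS (c : Cst F) (j : ℕ) : AddAction (ZMod 13) (c.LS j) where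
  vadd k z := ⟨c.ζ ^ k.val * z, ζ_LS c z.2 _⟩
  zero_vadd z := Subtype.ext (by
    show c.ζ ^ (0 : ZMod 13).val * (z : F) = z
    rw [ZMod.val_zero, pow_zero, one_mul])
  add_vadd k l z := Subtype.ext (by
    show c.ζ ^ (k + l).val * (z : F) = c.ζ ^ k.val * (c.ζ ^ l.val * z)
    rw [ζ_val_add, mul_assoc])

instance labMS (c : Cst F) (j : ℕ) : AddAction V4 (c.MS (j + 1)) where
  vadd v w := ⟨c.S v w, S_MS c w.2 v⟩
  zero_vadd w := Subtype.ext (S_zero (c := c) (w : F))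
  add_vadd v v' w := Subtype.ext ((MS_good w.2).S_add v v')

theorem vadd_LS (c : Cst F) (j : ℕ) (k : ZMod 13) (z : c.LS j) :
    ((k +ᵥ z : c.LS j) : F) = c.ζ ^ k.val * z := rfl

theorem vadd_MS (c : Cst F) (j : ℕ) (v : V4) (w : c.MS (j + 1)) :
    ((v +ᵥ w : c.MS (j + 1)) : F) = c.S v w := rfl

/-- `L_j → M_j` -/
def pm (c : Cst F) (j : ℕ) (z : c.LS j) : c.MS j := ⟨(z : F) ^ 13, z.2⟩

/-- `M_{j+1} → L_j` -/
def qm (c : Cst F) (j : ℕ) (w : c.MS (j + 1)) : c.LS j := ⟨c.P w, w.2.2⟩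

theorem pm_fib (c : Cst F) (j : ℕ) (k : ZMod 13) (z : c.LS j) : pm c j (k +ᵥ z) = pm c j z :=
  Subtype.ext (ζ_pow_mul_pow c k.val z)

theorem pm_trans (c : Cst F) (j : ℕ) (x x' : c.LS j) (h : pm c j x = pm c j x') :
    ∃ k : ZMod 13, x' = k +ᵥ x := by
  have h1 : (x : F) ^ 13 = (x' : F) ^ 13 := congrArg Subtype.val h
  have h0 : (x : F) ≠ 0 := (LS_ne x.2).1
  have h2 : ((x' : F) / x) ^ 13 = 1 := by
    rw [div_pow, ← h1, div_self (pow_ne_zero _ h0)]
  obtain ⟨i, hi, h3⟩ := (ζ_prim c).eq_pow_of_pow_eq_one h2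
  refine ⟨(i : ZMod 13), Subtype.ext ?_⟩
  rw [vadd_LS, ZMod.val_natCast, Nat.mod_eq_of_lt hi, h3, div_mul_cancel₀ _ h0]

theorem pm_free (c : Cst F) (j : ℕ) (k : ZMod 13) (x : c.LS j) (h : k +ᵥ x = x) : k = 0 := by
  have h1 : c.ζ ^ k.val * (x : F) = x := congrArg Subtype.val h
  have h0 : (x : F) ≠ 0 := (LS_ne x.2).1
  have h2 : c.ζ ^ k.val = 1 := mul_right_cancel₀ h0 (by rw [h1, one_mul])
  have h3 : 13 ∣ k.val := (ζ_prim c).dvd_of_pow_eq_one _ h2
  have h4 : k.val < 13 := ZMod.val_lt k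
  have h5 : k.val = 0 := Nat.eq_zero_of_dvd_of_lt h3 h4
  exact (ZMod.val_eq_zero k).1 h5

theorem qm_fib (c : Cst F) (j : ℕ) (v : V4) (w : c.MS (j + 1)) : qm c j (v +ᵥ w) = qm c j w :=
  Subtype.ext ((MS_good w.2).P_S v)

theorem qm_trans (c : Cst F) (j : ℕ) (x x' : c.MS (j + 1)) (h : qm c j x = qm c j x') :
    ∃ v : V4, x' = v +ᵥ x := by
  have h1 : c.P x = c.P x' := congrArg Subtype.val h
  obtain ⟨v, hv⟩ := (MS_good x.2).trans h1.symm
  exact ⟨v, Subtype.ext hv⟩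

theorem qm_free (c : Cst F) (j : ℕ) (v : V4) (x : c.MS (j + 1)) (h : v +ᵥ x = x) : v = 0 :=
  (MS_good x.2).free v (congrArg Subtype.val h)

end tors

section surj
variable {F : Type*} [Field F] [CharZero F] [IsAlgClosed F]

omit [CharZero F] in
theorem pm_surj (c : Cst F) (j : ℕ) : Function.Surjective (pm c j) := by
  rintro ⟨u, hu⟩
  obtain ⟨z, hz⟩ := IsAlgClosed.exists_pow_nat_eq u (by norm_num : 0 < 13)
  refine ⟨⟨z, ?_⟩, Subtype.ext hz⟩
  show z ^ 13 ∈ c.MS j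
  rw [hz]
  exact hu

theorem qm_surj (c : Cst F) (j : ℕ) : Function.Surjective (qm c j) := by
  rintro ⟨z, hz⟩
  obtain ⟨w, h1, h2⟩ := exists_P (c := c) z
  refine ⟨⟨w, h1, ?_⟩, Subtype.ext h2⟩
  rw [h2]
  exact hz

end surj

/-- A map whose fibres are torsors under `A` is a product up to a bijection. -/
theorem fib_equiv {A X Y : Type*} [AddCommGroup A] [AddAction A X] {p : X → Y}
    (surj : Function.Surjective p) (fib : ∀ (c : A) (x : X), p (c +ᵥ x) = p x)
    (trans : ∀ x x' : X, p x = p x' → ∃ c : A, x' = c +ᵥ x)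
    (free : ∀ (c : A) (x : X), c +ᵥ x = x → c = 0) : Nonempty (Y × A ≃ X) := by
  classical
  choose s hs using surj
  refine ⟨Equiv.ofBijective (fun t => t.2 +ᵥ s t.1) ⟨?_, ?_⟩⟩
  · rintro ⟨y, c⟩ ⟨y', c'⟩ h
    have h : c +ᵥ s y = c' +ᵥ s y' := h
    have h1 := congrArg p h
    rw [fib, fib, hs, hs] at h1
    subst h1
    have h2 : (-c' + c) +ᵥ s y = s y := by
      rw [add_vadd, h, ← add_vadd, neg_add_cancel, zero_vadd]
    have h3 := free _ _ h2
    have h4 : c = c' := by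
      rw [neg_add_eq_zero] at h3
      exact h3.symm
    rw [h4]
  · intro x
    obtain ⟨c, hc⟩ := trans (s (p x)) x (hs _)
    exact ⟨(p x, c), hc.symm⟩

section fib
variable {K F : Type*} [Field K] [Field F] [Algebra K F] [CharZero F] [IsAlgClosed F]

theorem fib_p (c0 : Cst K) (j : ℕ) :
    Fib (F ≃ₐ[K] F) (ZMod 13) ((c0.map (algebraMap K F)).LS j) ((c0.map (algebraMap K F)).MS j)
      (pm (c0.map (algebraMap K F)) j) where
  surj := pm_surj _ j
  equiv g x := Subtype.ext (map_pow g (x : F) 13).symm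
  comm g k x := Subtype.ext (by
    rw [smul_LS, vadd_LS, vadd_LS, smul_LS, map_mul, map_pow, g_ζ])
  fib := pm_fib _ j
  trans := pm_trans _ j
  free := pm_free _ j

theorem fib_q (c0 : Cst K) (j : ℕ) :
    Fib (F ≃ₐ[K] F) V4 ((c0.map (algebraMap K F)).MS (j + 1)) ((c0.map (algebraMap K F)).LS j)
      (qm (c0.map (algebraMap K F)) j) where
  surj := qm_surj _ j
  equiv g x := Subtype.ext (g_P c0 g (x : F)).symm
  comm g v x := Subtype.ext (by
    rw [smul_MS, vadd_MS, vadd_MS, smul_MS]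
    exact b_S (c := c0.map (algebraMap K F)) (g : F ≃+* F) (g_a c0 g) (g_ω c0 g) v (x : F))
  fib := qm_fib _ j
  trans := qm_trans _ j
  free := qm_free _ j

end fib

section card
variable {F : Type*} [Field F] [CharZero F] [IsAlgClosed F]

theorem equiv_LS (c : Cst F) (j : ℕ) : Nonempty (c.MS j × ZMod 13 ≃ c.LS j) :=
  fib_equiv (pm_surj c j) (pm_fib c j) (pm_trans c j) (pm_free c j)

theorem equiv_MS (c : Cst F) (j : ℕ) : Nonempty (c.LS j × V4 ≃ c.MS (j + 1)) :=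
  fib_equiv (qm_surj c j) (qm_fib c j) (qm_trans c j) (qm_free c j)

theorem finite_MS_aux (c : Cst F) (j : ℕ) : Finite (c.MS j) := by
  induction j with
  | zero => exact Set.finite_coe_iff.2 (Set.finite_singleton c.m)
  | succ j ih =>
    obtain ⟨e⟩ := equiv_LS c j
    obtain ⟨e'⟩ := equiv_MS c j
    have h1 : Finite (c.LS j) := Finite.of_equiv _ e
    exact Finite.of_equiv _ e'

/-- finiteness of the node sets -/
instance finite_MS (c : Cst F) (j : ℕ) : Finite (c.MS j) := finite_MS_aux c j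

instance finite_LS (c : Cst F) (j : ℕ) : Finite (c.LS j) := by
  obtain ⟨e⟩ := equiv_LS c j
  exact Finite.of_equiv _ e

theorem card_LS_MS (c : Cst F) (j : ℕ) : Nat.card (c.LS j) = 13 * Nat.card (c.MS j) := by
  obtain ⟨e⟩ := equiv_LS c j
  rw [← Nat.card_congr e, Nat.card_prod, Nat.card_zmod, mul_comm]

theorem card_MS (c : Cst F) (j : ℕ) : Nat.card (c.MS j) = 52 ^ j := by
  induction j with
  | zero =>
    show Nat.card ({c.m} : Set F) = 1
    exact Nat.card_unique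
  | succ j ih =>
    obtain ⟨e⟩ := equiv_MS c j
    rw [← Nat.card_congr e, Nat.card_prod, card_LS_MS, ih, Nat.card_prod, Nat.card_zmod, pow_succ]
    ring

theorem card_LS (c : Cst F) (j : ℕ) : Nat.card (c.LS j) = 13 * 52 ^ j := by
  rw [card_LS_MS, card_MS]

end card

end Pool.Agent.Arb
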